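import Pool.Agent.Run7.h426.DOM.Iface

/-! Piece DEX of the project DOM of helper426 (MP_0828a1_co), by helper959. -/

set_option autoImplicit false

namespace Run7.h959.DOM

open Finset Run7.h426.DOM

/-- the domination number from a dominating set and a lower bound -/
theorem dom_eq {k : ℕ} (H : UHG k) (c : ℕ) (D : Finset (Fin H.n)) (hD : Dom H D)
    (hc : D.card = c) (hl : ∀ D', Dom H D' → c ≤ D'.card) : dom H = c := by
  unfold dom
  apply le_antisymm
  · exact Nat.sInf_le ⟨D, hD, hc⟩
  · refine le_csInf ⟨c, D, hD, hc⟩ ?_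
    rintro b ⟨D', h1, rfl⟩
    exact hl D' h1

theorem dom_ne_empty {k : ℕ} (H : UHG k) (D : Finset (Fin H.n)) (hD : Dom H D) :
    D.Nonempty := by
  rw [nonempty_iff_ne_empty]
  rintro rfl
  obtain ⟨d, hd, _⟩ := hD ⟨0, H.pos⟩ (notMem_empty _)
  exact notMem_empty _ hd

/-- a single edge -/
theorem one_edge (k : ℕ) (hk : 1 ≤ k) :
    ∃ H : UHG k, H.n = k ∧ H.edges.card = 1 ∧ dom H = 1 := by
  let H : UHG k :=
    { n := k
      pos := hk
      edges := {univ}
      unif := by
        intro e he
        rw [mem_singleton.1 he, card_univ, Fintype.card_fin]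
      noIso := fun v => ⟨univ, mem_singleton_self _, mem_univ v⟩ }
  refine ⟨H, rfl, card_singleton _, ?_⟩
  refine dom_eq H 1 {⟨0, hk⟩} ?_ (card_singleton _) ?_
  · intro v hv
    refine ⟨⟨0, hk⟩, mem_singleton_self _, ?_, univ, mem_singleton_self _, mem_univ v,
      mem_univ _⟩
    intro h
    exact hv (mem_singleton.2 h.symm)
  · intro D' h
    exact card_pos.2 (dom_ne_empty H D' h)

theorem card_filter_fin (n : ℕ) (p : ℕ → Prop) [DecidablePred p] (S : Finset ℕ)
    (hS : ∀ v, v ∈ S ↔ v < n ∧ p v) :
    ((univ : Finset (Fin n)).filter (fun v => p v.1)).card = S.card := by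
  rw [← card_image_of_injective _ Fin.val_injective]
  congr 1
  ext v
  rw [hS, mem_image]
  constructor
  · rintro ⟨w, hw, rfl⟩
    exact ⟨w.2, (mem_filter.1 hw).2⟩
  · rintro ⟨h1, h2⟩
    exact ⟨⟨v, h1⟩, mem_filter.2 ⟨mem_univ _, h2⟩, rfl⟩

/-- first edge -/
def pA (m n0 v : ℕ) : Prop := m ≤ v ∧ v ≤ n0
/-- second edge -/
def pB (m n0 v : ℕ) : Prop := v < m ∨ (2 * m ≤ v ∧ v < n0) ∨ v = n0 + 1
/-- third edge -/
def pC (r n0 v : ℕ) : Prop := v < r ∨ v = n0 + 2

instance (m n0 : ℕ) : DecidablePred (pA m n0) := fun v => by unfold pA; infer_instance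
instance (m n0 : ℕ) : DecidablePred (pB m n0) := fun v => by unfold pB; infer_instance
instance (r n0 : ℕ) : DecidablePred (pC r n0) := fun v => by unfold pC; infer_instance

theorem three_edges (k : ℕ) (hk : 4 ≤ k) :
    ∃ H : UHG k, H.n = (3 * (k - 1) + 1) / 2 + 3 ∧ H.edges.card = 3 ∧ dom H = 2 := by
  obtain ⟨r, rfl⟩ : ∃ r, k = r + 1 := ⟨k - 1, by omega⟩
  rw [Nat.add_sub_cancel]
  generalize hn0 : (3 * r + 1) / 2 = n0
  obtain ⟨m, hm⟩ : ∃ m, m = (r + 1) / 2 := ⟨_, rfl⟩
  have h1 : n0 = r + m := by omega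
  have h2 : r ≤ 2 * m := by omega
  have h3 : 2 * m ≤ n0 := by omega
  have h4 : 0 < m := by omega
  have cA : ((univ : Finset (Fin (n0 + 3))).filter (fun v => pA m n0 v.1)).card = r + 1 := by
    rw [card_filter_fin (n0 + 3) (pA m n0) (Ico m (n0 + 1))]
    · rw [Nat.card_Ico]; omega
    · intro v
      rw [mem_Ico]
      unfold pA
      omega
  have cB : ((univ : Finset (Fin (n0 + 3))).filter (fun v => pB m n0 v.1)).card = r + 1 := by
    rw [card_filter_fin (n0 + 3) (pB m n0) (insert (n0 + 1) (range m ∪ Ico (2 * m) n0))]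
    · rw [card_insert_of_notMem, card_union_of_disjoint, card_range, Nat.card_Ico]
      · omega
      · rw [disjoint_left]
        intro a ha hb
        rw [mem_range] at ha
        rw [mem_Ico] at hb
        omega
      · rw [mem_union, mem_range, mem_Ico]
        omega
    · intro v
      rw [mem_insert, mem_union, mem_range, mem_Ico]
      unfold pB
      omega
  have cC : ((univ : Finset (Fin (n0 + 3))).filter (fun v => pC r n0 v.1)).card = r + 1 := by
    rw [card_filter_fin (n0 + 3) (pC r n0) (insert (n0 + 2) (range r))]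
    · rw [card_insert_of_notMem, card_range]
      rw [mem_range]
      omega
    · intro v
      rw [mem_insert, mem_range]
      unfold pC
      omega
  set A := (univ : Finset (Fin (n0 + 3))).filter (fun v => pA m n0 v.1) with hA
  set B := (univ : Finset (Fin (n0 + 3))).filter (fun v => pB m n0 v.1) with hB
  set C := (univ : Finset (Fin (n0 + 3))).filter (fun v => pC r n0 v.1) with hC
  have mA : ∀ v : Fin (n0 + 3), v ∈ A ↔ pA m n0 v.1 := fun v => by
    rw [hA, mem_filter]; exact ⟨fun h => h.2, fun h => ⟨mem_univ _, h⟩⟩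
  have mB : ∀ v : Fin (n0 + 3), v ∈ B ↔ pB m n0 v.1 := fun v => by
    rw [hB, mem_filter]; exact ⟨fun h => h.2, fun h => ⟨mem_univ _, h⟩⟩
  have mC : ∀ v : Fin (n0 + 3), v ∈ C ↔ pC r n0 v.1 := fun v => by
    rw [hC, mem_filter]; exact ⟨fun h => h.2, fun h => ⟨mem_univ _, h⟩⟩
  -- the three private vertices
  let qA : Fin (n0 + 3) := ⟨n0, by omega⟩
  let qB : Fin (n0 + 3) := ⟨n0 + 1, by omega⟩
  let qC : Fin (n0 + 3) := ⟨n0 + 2, by omega⟩
  have qAA : qA ∈ A := (mA qA).2 (by show pA m n0 n0; unfold pA; omega)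
  have qBB : qB ∈ B := (mB qB).2 (by show pB m n0 (n0 + 1); unfold pB; omega)
  have qCC : qC ∈ C := (mC qC).2 (by show pC r n0 (n0 + 2); unfold pC; omega)
  have qAB : qA ∉ B := fun h => by
    have : pB m n0 n0 := (mB qA).1 h
    unfold pB at this; omega
  have qAC : qA ∉ C := fun h => by
    have : pC r n0 n0 := (mC qA).1 h
    unfold pC at this; omega
  have qBA : qB ∉ A := fun h => by
    have : pA m n0 (n0 + 1) := (mA qB).1 h
    unfold pA at this; omega
  have qBC : qB ∉ C := fun h => by
    have : pC r n0 (n0 + 1) := (mC qB).1 h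
    unfold pC at this; omega
  have qCA : qC ∉ A := fun h => by
    have : pA m n0 (n0 + 2) := (mA qC).1 h
    unfold pA at this; omega
  have qCB : qC ∉ B := fun h => by
    have : pB m n0 (n0 + 2) := (mB qC).1 h
    unfold pB at this; omega
  have hAB : A ≠ B := fun h => qAB (h ▸ qAA)
  have hAC : A ≠ C := fun h => qAC (h ▸ qAA)
  have hBC : B ≠ C := fun h => qBC (h ▸ qBB)
  have hcov : ∀ v : Fin (n0 + 3), v ∈ A ∨ v ∈ B ∨ v ∈ C := by
    intro v
    rw [mA, mB, mC]
    have := v.2
    unfold pA pB pC
    omega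
  have hno : ∀ v : Fin (n0 + 3), v ∈ A → v ∈ B → v ∈ C → False := by
    intro v ha hb hc
    rw [mA] at ha
    rw [mB] at hb
    rw [mC] at hc
    unfold pA at ha
    unfold pB at hb
    unfold pC at hc
    omega
  let H : UHG (r + 1) :=
    { n := n0 + 3
      pos := by omega
      edges := {A, B, C}
      unif := by
        intro e he
        rw [mem_insert, mem_insert, mem_singleton] at he
        rcases he with rfl | rfl | rfl
        · exact cA
        · exact cB
        · exact cC
      noIso := by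
        intro v
        rcases hcov v with h | h | h
        · exact ⟨A, by rw [mem_insert]; exact Or.inl rfl, h⟩
        · exact ⟨B, by rw [mem_insert, mem_insert]; exact Or.inr (Or.inl rfl), h⟩
        · exact ⟨C, by rw [mem_insert, mem_insert, mem_singleton]; exact Or.inr (Or.inr rfl), h⟩ }
  have HA : A ∈ H.edges := by
    show A ∈ ({A, B, C} : Finset (Finset (Fin (n0 + 3))))
    rw [mem_insert]; exact Or.inl rfl
  have HB : B ∈ H.edges := by
    show B ∈ ({A, B, C} : Finset (Finset (Fin (n0 + 3))))
    rw [mem_insert, mem_insert]; exact Or.inr (Or.inl rfl)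
  have HC : C ∈ H.edges := by
    show C ∈ ({A, B, C} : Finset (Finset (Fin (n0 + 3))))
    rw [mem_insert, mem_insert, mem_singleton]; exact Or.inr (Or.inr rfl)
  have Hcase : ∀ e ∈ H.edges, e = A ∨ e = B ∨ e = C := by
    intro e he
    have he' : e ∈ ({A, B, C} : Finset (Finset (Fin (n0 + 3)))) := he
    rwa [mem_insert, mem_insert, mem_singleton] at he'
  have hcard : H.edges.card = 3 := by
    show ({A, B, C} : Finset (Finset (Fin (n0 + 3)))).card = 3
    rw [card_insert_of_notMem, card_insert_of_notMem, card_singleton]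
    · rw [mem_singleton]; exact hBC
    · rw [mem_insert, mem_singleton]
      rintro (h | h)
      · exact hAB h
      · exact hAC h
  refine ⟨H, rfl, hcard, ?_⟩
  let o : Fin (n0 + 3) := ⟨0, by omega⟩
  have oB : o ∈ B := (mB o).2 (by show pB m n0 0; unfold pB; omega)
  have oC : o ∈ C := (mC o).2 (by show pC r n0 0; unfold pC; omega)
  have oq : o ≠ qA := by
    intro h
    have := congrArg Fin.val h
    change 0 = n0 at this
    omega
  refine dom_eq H 2 ({o, qA} : Finset (Fin (n0 + 3))) ?_ (card_pair oq) ?_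
  · intro v hv
    have hv1 : v ≠ o := fun h => hv (by rw [h]; exact mem_insert_self _ _)
    have hv2 : v ≠ qA := fun h => hv (by
      rw [h]; exact mem_insert_of_mem (mem_singleton_self _))
    rcases hcov v with h | h | h
    · exact ⟨qA, mem_insert_of_mem (mem_singleton_self _), hv2.symm, A, HA, h, qAA⟩
    · exact ⟨o, mem_insert_self _ _, hv1.symm, B, HB, h, oB⟩
    · exact ⟨o, mem_insert_self _ _, hv1.symm, C, HC, h, oC⟩
  · intro D hD
    by_contra hlt
    have hne := dom_ne_empty H D hD
    have hc1 : D.card = 1 := by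
      have := card_pos.2 hne
      omega
    obtain ⟨d, hd⟩ := card_eq_one.1 hc1
    have key : ∀ (q : Fin (n0 + 3)) (X : Finset (Fin (n0 + 3))), q ∈ X →
        (∀ e ∈ H.edges, q ∈ e → e = X) → d ∈ X := by
      intro q X hq hX
      by_cases hqd : q = d
      · rw [← hqd]; exact hq
      · obtain ⟨d', hd', _, e, he, hqe, hde⟩ := hD q (by
          rw [hd, mem_singleton]; exact hqd)
        rw [hd, mem_singleton] at hd'
        rw [hX e he hqe, hd'] at hde
        exact hde
    refine hno d (key qA A qAA ?_) (key qB B qBB ?_) (key qC C qCC ?_)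
    · intro e he hq
      rcases Hcase e he with rfl | rfl | rfl
      · rfl
      · exact absurd hq qAB
      · exact absurd hq qAC
    · intro e he hq
      rcases Hcase e he with rfl | rfl | rfl
      · exact absurd hq qBA
      · rfl
      · exact absurd hq qBC
    · intro e he hq
      rcases Hcase e he with rfl | rfl | rfl
      · exact absurd hq qCA
      · exact absurd hq qCB
      · rfl

/-- the piece DEX -/
theorem t_DEX : S_DEX := ⟨one_edge, three_edges⟩

end Run7.h959.DOM
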